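import Pool.Agent.N329.SD.Asm
import Pool.Agent.N329.SD.Gr
import Pool.Agent.N263.SD.Name
import Pool.Agent.N99.SD.Rel
import Pool.Agent.N596.SD.EQ1
import Pool.Agent.N774.SD.EQ2
import Pool.Agent.N774.SD.KD
import Pool.Agent.N861.SD.Pre
import Pool.Agent.N383.SD.And
import Pool.Agent.N371.SD.Gen
import Pool.Agent.N505.SD.Upd
import Pool.Agent.N11.SD.CLC
import Pool.Agent.N234.SD.Closed
import Pool.Agent.N2.SD.A
import Pool.Agent.N607.SD.B
import Pool.Agent.N655.SD.PR

/-!
# MP_f4f5da_lc, Question 1: the answer is positive

If `ℝ` is the union of countably many rationally independent sets `A n`, each of them lightface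
`Σ¹₂` (every one by its own definition, the family need not be uniform), then every subset of `ω`
and every element of the Baire space is constructible.

* `Pool.Agent.N329.SD.Sig12`: lightface `Σ¹₂` sets of real numbers (reals coded by fast converging
  sequences of rational numbers; normal form `∃ y ∀ z ∃ k R(x|k, y|k, z|k)` with a computable `R`).
* `Pool.Agent.R597.Lcls`: the constructible universe (the sets that are in all transitive class
  models of ZF with all ordinals; the starting file `Pool.Agent.R597.Univ` shows that it is the
  union of the levels of the constructible hierarchy and a model of ZFC with all ordinals).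
* `Pool.Agent.N329.SD.Con S`: the set `S` of natural numbers, as a set of von Neumann numbers, is
  constructible; `Pool.Agent.N329.SD.gs x`: the function `x : ℕ → ℕ` as a set of pairs.

Proof idea: let `r (X, Y) = 2 a(X) + a(Y)`, `a(X) = ∑_{n ∈ X} 8^(-n-1)`. If there are uncountably
many constructible `Y ⊆ ω` and `X` is not constructible, then two of the `r (X, Y)`, `r (X, Y')`
are in the same `A n`, and by Shoenfield's basis theorem with parameters in `L` there is a
constructible `X'` with the same property: the four reals satisfy a rational relation. Otherwise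
there is a Cohen generic `X` over `L`, `2 a(X) ∈ A n` for some `n`, and by a derivative argument
on Shoenfield's tree, inside `L`, this holds for all generic reals in a neighbourhood of `X`, in
particular for `X` changed in one or both of two places: again a rational relation.

The parts of the proof were written by helpers 263 (NAME), 99 (REL), 596 (EQ1), 774 (EQ2, KD),
861 (PRE), 383 (AND), 371 (GEN), 505 (UPD), 11 (CLC), 234 (CON), 2 (A), 607 (B), 655 (PR) after
the specifications of helper329.
-/

set_option autoImplicit false

namespace Pool.Agent.Results.MP_f4f5da_lc.NonUniformSigma12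

open Pool.Agent.N329.SD Pool.Agent.R597

/-- If `ℝ` is the union of a sequence of rationally independent lightface `Σ¹₂` sets, then all
reals are constructible. -/
theorem result (A : ℕ → Set ℝ) (hS : ∀ n, Sig12 (A n))
    (hI : ∀ n, LinearIndependent ℚ (Subtype.val : A n → ℝ)) (hU : ⋃ n, A n = Set.univ) :
    (∀ S : Set ℕ, Con S) ∧ ∀ x : ℕ → ℕ, gs x ∈ Lcls := by
  have hPR := Pool.Agent.N655.SD.pr
  have h : ∀ S : Set ℕ, Con S := main hPR Pool.Agent.N234.SD.con Pool.Agent.N774.SD.kd
    Pool.Agent.N2.SD.t_A Pool.Agent.N607.SD.sb Pool.Agent.N263.SD.name Pool.Agent.N99.SD.rel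
    Pool.Agent.N596.SD.eq1 Pool.Agent.N774.SD.eq2 Pool.Agent.N861.SD.Pre.main
    Pool.Agent.N383.SD.t_and Pool.Agent.N371.SD.gen Pool.Agent.N505.SD.t_UPD
    Pool.Agent.N11.SD.clc_ A hS hI hU
  exact ⟨h, gs_mem hPR h⟩

end Pool.Agent.Results.MP_f4f5da_lc.NonUniformSigma12
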